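import Mathlib

set_option autoImplicit false

open Filter Topology
open scoped ENNReal

namespace Pool.Agent.Results.MP_7d5b5f_an.OwnStatement

/-- the normalising constant `c_d = π^(-(d+1)/2) Γ((d+1)/2)` -/
noncomputable def cst (d : ℕ) : ℝ :=
  Real.pi ^ (-(((d : ℝ) + 1) / 2)) * Real.Gamma (((d : ℝ) + 1) / 2)

/-- the Euclidean norm of a lattice point -/
noncomputable def enorm2 {d : ℕ} (m : Fin d → ℤ) : ℝ := Real.sqrt (∑ i, ((m i : ℤ) : ℝ) ^ 2)

/-- the kernel `c_d m_k |m|^(-d-1)` -/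
noncomputable def kern {d : ℕ} (k : Fin d) (m : Fin d → ℤ) : ℝ :=
  cst d * (m k : ℝ) / enorm2 m ^ (d + 1)

/-- the Calderon-Zygmund discrete Riesz transform
`R f (n) = ∑_{m ≠ 0} c_d m_k |m|^(-d-1) f (n - m)` -/
noncomputable def riesz {d : ℕ} (k : Fin d) (f : (Fin d → ℤ) → ℂ) (n : Fin d → ℤ) : ℂ :=
  ∑' m : {m : Fin d → ℤ // m ≠ 0}, (kern k m.1 : ℂ) * f (n - m.1)

/-- the `ℓ^p` norm, as an extended nonnegative real number -/
noncomputable def lpn {d : ℕ} (p : ℝ) (f : (Fin d → ℤ) → ℂ) : ℝ≥0∞ :=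
  (∑' n, ‖f n‖ₑ ^ p) ^ (1 / p)

/-- the operator norm of the discrete Riesz transform on `ℓ^p(ℤ^d)` -/
noncomputable def opNorm (p : ℝ) (d : ℕ) (k : Fin d) : ℝ≥0∞ :=
  ⨆ f : {f : (Fin d → ℤ) → ℂ // lpn p f ≤ 1}, lpn p (riesz k f.1)

lemma le_lpn {d : ℕ} {p : ℝ} (hp : 0 < p) (f : (Fin d → ℤ) → ℂ) (n : Fin d → ℤ) :
    ‖f n‖ₑ ≤ lpn p f := by
  have h1 : ‖f n‖ₑ ^ p ≤ ∑' n, ‖f n‖ₑ ^ p := ENNReal.le_tsum n
  calc ‖f n‖ₑ = (‖f n‖ₑ ^ p) ^ (1 / p) := by
        rw [← ENNReal.rpow_mul, mul_one_div_cancel hp.ne', ENNReal.rpow_one]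
    _ ≤ _ := ENNReal.rpow_le_rpow h1 (by positivity)

lemma lpn_single {d : ℕ} {p : ℝ} (hp : 0 < p) :
    lpn p (Pi.single (0 : Fin d → ℤ) (1 : ℂ)) = 1 := by
  unfold lpn
  rw [tsum_eq_single (0 : Fin d → ℤ)]
  · simp
  · intro n hn
    rw [Pi.single_eq_of_ne hn]
    simp [hp]

lemma riesz_single {d : ℕ} (k : Fin d) :
    riesz k (Pi.single (0 : Fin d → ℤ) (1 : ℂ)) (Pi.single k 1) = (cst d : ℂ) := by
  have hne : (Pi.single k (1 : ℤ) : Fin d → ℤ) ≠ 0 := by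
    intro h
    have := congrFun h k
    simp at this
  unfold riesz
  rw [tsum_eq_single (⟨Pi.single k 1, hne⟩ : {m : Fin d → ℤ // m ≠ 0})]
  · have h1 : enorm2 (Pi.single k (1 : ℤ) : Fin d → ℤ) = 1 := by
      unfold enorm2
      rw [Finset.sum_eq_single k]
      · simp
      · intro i _ hi
        rw [Pi.single_eq_of_ne hi]
        simp
      · simp
    simp [kern, h1]
  · intro m hm
    have : (Pi.single k 1 - m.1 : Fin d → ℤ) ≠ 0 := by
      intro h
      exact hm (Subtype.ext (sub_eq_zero.1 h).symm)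
    rw [Pi.single_eq_of_ne this, mul_zero]

lemma cst_le_opNorm {p : ℝ} (hp : 0 < p) (d : ℕ) (k : Fin d) :
    ENNReal.ofReal (cst d) ≤ opNorm p d k := by
  have h0 : 0 ≤ cst d := by
    unfold cst
    have : 0 < Real.Gamma (((d : ℝ) + 1) / 2) := Real.Gamma_pos_of_pos (by positivity)
    have := Real.pi_pos
    positivity
  calc ENNReal.ofReal (cst d)
      = ‖riesz k (Pi.single (0 : Fin d → ℤ) (1 : ℂ)) (Pi.single k 1)‖ₑ := by
        rw [riesz_single, ← ofReal_norm, Complex.norm_real, Real.norm_of_nonneg h0]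
    _ ≤ lpn p (riesz k (Pi.single (0 : Fin d → ℤ) (1 : ℂ))) := le_lpn hp _ _
    _ ≤ _ := le_iSup (fun f : {f : (Fin d → ℤ) → ℂ // lpn p f ≤ 1} => lpn p (riesz k f.1))
        ⟨Pi.single (0 : Fin d → ℤ) (1 : ℂ), (lpn_single hp).le⟩

lemma cst_odd (N : ℕ) : cst (2 * N + 1) = (N.factorial : ℝ) / Real.pi ^ (N + 1) := by
  have hhalf : (((2 * N + 1 : ℕ) : ℝ) + 1) / 2 = (N : ℝ) + 1 := by push_cast; ring
  unfold cst
  rw [hhalf, Real.Gamma_nat_eq_factorial, Real.rpow_neg Real.pi_pos.le]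
  have : Real.pi ^ ((N : ℝ) + 1) = Real.pi ^ (N + 1) := by
    rw [← Real.rpow_natCast]; push_cast; rfl
  rw [this]
  field_simp

lemma tendsto_cst_odd : Tendsto (fun N : ℕ => cst (2 * N + 1)) atTop atTop := by
  have hlim := FloorSemiring.tendsto_pow_div_factorial_atTop (Real.pi)
  have h1 : Tendsto (fun n : ℕ => Real.pi * (Real.pi ^ n / (n.factorial : ℝ))) atTop (𝓝 0) := by
    simpa using hlim.const_mul Real.pi
  have h2 : Tendsto (fun n : ℕ => Real.pi * (Real.pi ^ n / (n.factorial : ℝ))) atTop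
      (𝓝[>] 0) := by
    refine tendsto_nhdsWithin_iff.2 ⟨h1, Eventually.of_forall fun n => ?_⟩
    have := Real.pi_pos
    have := n.factorial_pos
    simp only [Set.mem_Ioi]
    positivity
  refine (h2.inv_tendsto_nhdsGT_zero).congr fun n => ?_
  rw [cst_odd]
  simp only [Pi.inv_apply]
  have := Real.pi_pos
  have := n.factorial_pos
  field_simp
  rw [pow_succ, mul_comm]

/-- For every exponent `1 < p < ∞` the `ℓ^p(ℤ^d)` norm of every discrete Riesz transform is at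
least `c_d`, and the supremum of these norms over all dimensions `d` and all `k ≤ d` is infinite;
so for no `p` is there a constant `C_p` as asked in Q1. -/
theorem result (p : ℝ) (hp : 1 < p) :
    (∀ (d : ℕ) (k : Fin d), ENNReal.ofReal (cst d) ≤ opNorm p d k) ∧
      (⨆ (d : ℕ) (k : Fin d), opNorm p d k) = ∞ := by
  have hp0 : 0 < p := by linarith
  refine ⟨fun d k => cst_le_opNorm hp0 d k, ?_⟩
  refine ENNReal.eq_top_of_forall_nnreal_le fun C => le_of_lt ?_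
  obtain ⟨N, hN⟩ := (tendsto_cst_odd.eventually (eventually_gt_atTop (C : ℝ))).exists
  have h1 : (C : ℝ≥0∞) < ENNReal.ofReal (cst (2 * N + 1)) := by
    rw [ENNReal.lt_ofReal_iff_toReal_lt ENNReal.coe_ne_top]
    simpa using hN
  refine h1.trans_le ((cst_le_opNorm hp0 (2 * N + 1) ⟨0, by omega⟩).trans ?_)
  exact le_iSup_of_le (2 * N + 1) (le_iSup_of_le ⟨0, by omega⟩ le_rfl)

end Pool.Agent.Results.MP_7d5b5f_an.OwnStatement
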